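import Pool.Agent.Lib.MP_4b8564_nt.GT.Colour

/-!
Sign changes of the Kloosterman sums `Kl₂(1;c)` for squarefree moduli `c = g t p q` and
`c = g u p q`, where `p` and `q` are primes of the same colour in an arbitrary finite colouring.
-/

namespace Pool.Agent.Results.MP_4b8564_nt.ColouredSigns

open Pool.Agent.Lib.MP_4b8564_nt

open Classical in
theorem result : ∀ Kl : ℕ → ℝ,
    (∀ c : ℕ, Kl c = (Real.sqrt (c : ℝ))⁻¹ *
      ∑ x ∈ (Finset.range c).filter (fun x => Nat.Coprime x c),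
        Real.cos (2 * Real.pi * (((x + ((x : ZMod c)⁻¹).val : ℕ) : ℝ)) / (c : ℝ))) →
    ∀ g t u : ℕ, Squarefree g → t.Prime → u.Prime → t % 4 = 3 → u % 4 = 3 → 3 < t → t < u →
    ¬ t ∣ g → ¬ u ∣ g → ∀ r y : ℕ, ∃ A : ℕ, ∃ δ : ℝ, 0 < δ ∧ ∃ X₀ : ℕ,
      ∀ col : ℕ → Fin r, ∀ X : ℕ, X₀ ≤ X →
      δ * X / Real.log X ^ A ≤ (((Finset.Icc 1 X).filter fun c => Squarefree c ∧
        (∃ p q : ℕ, p.Prime ∧ q.Prime ∧ y < p ∧ p < q ∧ col p = col q ∧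
          (c = g * t * p * q ∨ c = g * u * p * q)) ∧ 0 < Kl c).card : ℝ) ∧
      δ * X / Real.log X ^ A ≤ (((Finset.Icc 1 X).filter fun c => Squarefree c ∧
        (∃ p q : ℕ, p.Prime ∧ q.Prime ∧ y < p ∧ p < q ∧ col p = col q ∧
          (c = g * t * p * q ∨ c = g * u * p * q)) ∧ Kl c < 0).card : ℝ) := by
  intro Kl hKl g t u hg pt pu t4 u4 t3 tu hgt hgu r y
  obtain ⟨A, δ, hδ, X₀, h⟩ := GT.colour_signs hg pt pu t4 u4 t3 tu hgt hgu r y
  refine ⟨A, δ, hδ, X₀, fun col X hX => ⟨(h col X hX 1 one_ne_zero).trans ?_,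
    (h col X hX (-1) (by norm_num)).trans ?_⟩⟩
  all_goals
    refine Nat.cast_le.2 (Finset.card_le_card fun c hc => ?_)
    obtain ⟨h1, h2, ⟨w, p, q, hw, a1, a2, a3, a4, a5, a6⟩, h5⟩ := Finset.mem_filter.1 hc
    have hs : 0 < (Real.sqrt (c : ℝ))⁻¹ :=
      inv_pos.2 (Real.sqrt_pos.2 (by exact_mod_cast (Finset.mem_Icc.1 h1).1))
    refine Finset.mem_filter.2 ⟨h1, h2, ⟨p, q, a1, a2, a3, a4, a5,
      hw.imp (fun e => by rw [← e]; exact a6) fun e => by rw [← e]; exact a6⟩, ?_⟩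
    rw [hKl]
  · exact mul_pos hs (by rwa [one_mul] at h5)
  · exact mul_neg_of_pos_of_neg hs (by rwa [neg_one_mul, neg_pos] at h5)

end Pool.Agent.Results.MP_4b8564_nt.ColouredSigns
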