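import Pool.Agent.FS.LargeCof.D

/-!
Both signs of `Kl₂(1;c)` occur among the moduli `c = g t p q` with one bounded prime `t`, for every
squarefree cofactor `g` without small prime factors, uniformly in `g`.
-/

namespace Pool.Agent.Variants.MP_4b8564_nt.LargeCofactor

theorem result : ∀ Kl : ℕ → ℝ,
    (∀ c : ℕ, Kl c = (Real.sqrt (c : ℝ))⁻¹ *
      ∑ x ∈ (Finset.range c).filter (fun x => Nat.Coprime x c),
        Real.cos (2 * Real.pi * (((x + ((x : ZMod c)⁻¹).val : ℕ) : ℝ)) / (c : ℝ))) →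
    ∀ E : ℕ, ∃ y Z₀ : ℕ, ∀ Z g X : ℕ, Z₀ ≤ Z → Squarefree g →
      (∀ l : ℕ, l.Prime → l ∣ g → Z < l) → g * Z ≤ X → X ≤ Z ^ E →
      (∃ t p q : ℕ, t.Prime ∧ p.Prime ∧ q.Prime ∧ t ≤ y ∧ (X : ℝ) < p * Real.log X ^ 2 ∧ p < q ∧
        q ≤ X ∧ Squarefree (g * t * p * q) ∧ 0 < Kl (g * t * p * q)) ∧
      (∃ t p q : ℕ, t.Prime ∧ p.Prime ∧ q.Prime ∧ t ≤ y ∧ (X : ℝ) < p * Real.log X ^ 2 ∧ p < q ∧
        q ≤ X ∧ Squarefree (g * t * p * q) ∧ Kl (g * t * p * q) < 0) := by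
  intro Kl hKl E
  obtain ⟨y, Z₀, h⟩ := Pool.Agent.FS.LargeCof.main E
  have hs : ∀ c : ℕ, Squarefree c → 0 < (Real.sqrt (c : ℝ))⁻¹ := fun c hc =>
    inv_pos.2 (Real.sqrt_pos.2 (by exact_mod_cast Nat.pos_of_ne_zero hc.ne_zero))
  refine ⟨y, Z₀, fun Z g X h1 h2 h3 h4 h5 => ⟨?_, ?_⟩⟩
  · obtain ⟨t, p, q, a1, a2, a3, a4, a5, a6, a7, a8, a9⟩ := h Z g X h1 h2 h3 h4 h5 1 one_ne_zero
    refine ⟨t, p, q, a1, a2, a3, a4, a5, a6, a7, a8, ?_⟩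
    rw [hKl]
    exact mul_pos (hs _ a8) (by rwa [one_mul] at a9)
  · obtain ⟨t, p, q, a1, a2, a3, a4, a5, a6, a7, a8, a9⟩ :=
      h Z g X h1 h2 h3 h4 h5 (-1) (by norm_num)
    refine ⟨t, p, q, a1, a2, a3, a4, a5, a6, a7, a8, ?_⟩
    rw [hKl]
    exact mul_neg_of_pos_of_neg (hs _ a8) (by rwa [neg_one_mul, neg_pos] at a9)

end Pool.Agent.Variants.MP_4b8564_nt.LargeCofactor
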