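import Pool.Agent.Lib.MP_4b8564_nt.GT.Rough

/-!
Sign changes of the Kloosterman sums `Kl₂(1;c)` for squarefree moduli with exactly `k` prime
factors, all larger than `y`, for every `k ≥ 3` and every `y`, with a lower bound for the number
of such moduli.
-/

namespace Pool.Agent.Results.MP_4b8564_nt.SignChanges

open Pool.Agent.Lib.MP_4b8564_nt

theorem result : ∀ Kl : ℕ → ℝ,
    (∀ c : ℕ, Kl c = (Real.sqrt (c : ℝ))⁻¹ *
      ∑ x ∈ (Finset.range c).filter (fun x => Nat.Coprime x c),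
        Real.cos (2 * Real.pi * (((x + ((x : ZMod c)⁻¹).val : ℕ) : ℝ)) / (c : ℝ))) →
    ∀ k : ℕ, 3 ≤ k → ∀ y : ℕ, ∃ A : ℕ, ∃ δ : ℝ, 0 < δ ∧ ∃ X₀ : ℕ, ∀ X : ℕ, X₀ ≤ X →
      δ * X / Real.log X ^ A ≤ (((Finset.Icc 1 X).filter fun c =>
        Squarefree c ∧ c.primeFactors.card = k ∧ (∀ p ∈ c.primeFactors, y < p) ∧
          0 < Kl c).card : ℝ) ∧
      δ * X / Real.log X ^ A ≤ (((Finset.Icc 1 X).filter fun c =>
        Squarefree c ∧ c.primeFactors.card = k ∧ (∀ p ∈ c.primeFactors, y < p) ∧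
          Kl c < 0).card : ℝ) := by
  intro Kl hKl k hk y
  obtain ⟨A, δ, hδ, X₀, h⟩ := GT.rough_signs k hk y
  refine ⟨A, δ, hδ, X₀, fun X hX => ⟨(h X hX 1 one_ne_zero).trans ?_,
    (h X hX (-1) (by norm_num)).trans ?_⟩⟩
  all_goals
    refine Nat.cast_le.2 (Finset.card_le_card fun c hc => ?_)
    obtain ⟨h1, h2, h3, h4, h5⟩ := Finset.mem_filter.1 hc
    have hs : 0 < (Real.sqrt (c : ℝ))⁻¹ :=
      inv_pos.2 (Real.sqrt_pos.2 (by exact_mod_cast (Finset.mem_Icc.1 h1).1))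
    refine Finset.mem_filter.2 ⟨h1, h2, h3, h4, ?_⟩
    rw [hKl]
  · exact mul_pos hs (by rwa [one_mul] at h5)
  · exact mul_neg_of_pos_of_neg hs (by rwa [neg_one_mul, neg_pos] at h5)

end Pool.Agent.Results.MP_4b8564_nt.SignChanges
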